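import Mathlib

set_option autoImplicit false

/-! # Formations of finite groups: definitions and basic closure lemmas (helper463) -/

namespace Pool.Agent.H463R4.FO

/-- `F` is a formation of finite groups. -/
structure IsFormation (F : ∀ (G : Type) [Group G], Prop) : Prop where
  fin : ∀ (G : Type) [Group G], F G → Finite G
  iso : ∀ (G H : Type) [Group G] [Group H], F G → (G ≃* H) → F H
  quot : ∀ (G : Type) [Group G] (N : Subgroup G) [N.Normal], F G → F (G ⧸ N)
  inf : ∀ (G : Type) [Group G] [Finite G] (N₁ N₂ : Subgroup G) [N₁.Normal] [N₂.Normal],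
    F (G ⧸ N₁) → F (G ⧸ N₂) → F (G ⧸ (N₁ ⊓ N₂))

/-- every normal subgroup of a member is a member -/
def SnClosed (F : ∀ (G : Type) [Group G], Prop) : Prop :=
  ∀ (G : Type) [Group G] (N : Subgroup G) [N.Normal], F G → F N

/-- every subformation of `F` is `S_n`-closed -/
def AllSubSn (F : ∀ (G : Type) [Group G], Prop) : Prop :=
  ∀ H : (∀ (G : Type) [Group G], Prop), IsFormation H →
    (∀ (G : Type) [Group G], H G → F G) → SnClosed H

/-- all normal subgroups of `G` are perfect -/
def NormPerfect (G : Type) [Group G] : Prop :=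
  ∀ H : Subgroup G, H.Normal → ⁅H, H⁆ = H

variable {X : ∀ (G : Type) [Group G], Prop}

theorem IsFormation.surj (hX : IsFormation X) {G H : Type} [Group G] [Group H] (f : G →* H)
    (hf : Function.Surjective f) (hG : X G) : X H :=
  hX.iso _ _ (hX.quot G f.ker hG) (QuotientGroup.quotientKerEquivOfSurjective f hf)

theorem IsFormation.two (hX : IsFormation X) {G H₁ H₂ : Type} [Group G] [Group H₁] [Group H₂]
    (h₁ : X H₁) (h₂ : X H₂) (f₁ : G →* H₁) (f₂ : G →* H₂) (s₁ : Function.Surjective f₁)
    (s₂ : Function.Surjective f₂) (h : ∀ g, f₁ g = 1 → f₂ g = 1 → g = 1) : X G := by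
  have fin₁ := hX.fin _ h₁
  have fin₂ := hX.fin _ h₂
  have hfin : Finite G := by
    refine Finite.of_injective (fun g => (f₁ g, f₂ g)) ?_
    intro a b hab
    simp only [Prod.mk.injEq] at hab
    have : a * b⁻¹ = 1 := h _ (by simp [hab.1]) (by simp [hab.2])
    exact mul_inv_eq_one.1 this
  have e₁ : X (G ⧸ f₁.ker) := hX.iso _ _ h₁ (QuotientGroup.quotientKerEquivOfSurjective f₁ s₁).symm
  have e₂ : X (G ⧸ f₂.ker) := hX.iso _ _ h₂ (QuotientGroup.quotientKerEquivOfSurjective f₂ s₂).symm
  have e := hX.inf G f₁.ker f₂.ker e₁ e₂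
  have hb : f₁.ker ⊓ f₂.ker = ⊥ := by
    rw [eq_bot_iff]
    intro g hg
    rw [Subgroup.mem_inf, MonoidHom.mem_ker, MonoidHom.mem_ker] at hg
    exact Subgroup.mem_bot.2 (h g hg.1 hg.2)
  have e3 := hX.iso _ _ e (QuotientGroup.quotientMulEquivOfEq hb)
  exact hX.iso _ _ e3 QuotientGroup.quotientBot

theorem IsFormation.prod (hX : IsFormation X) {H₁ H₂ : Type} [Group H₁] [Group H₂]
    (h₁ : X H₁) (h₂ : X H₂) : X (H₁ × H₂) :=
  hX.two h₁ h₂ (MonoidHom.fst _ _) (MonoidHom.snd _ _) Prod.fst_surjective Prod.snd_surjective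
    (fun g h1 h2 => Prod.ext h1 h2)

/-- a finite (nonempty or not) family version of `two` -/
theorem IsFormation.family (hX : IsFormation X) {G H : Type} [Group G] [Group H] (hH : X H)
    {ι : Type} (s : Finset ι) (f : ι → G →* H) (hf : ∀ i ∈ s, Function.Surjective (f i)) :
    s.Nonempty → ∀ (K : Type) [Group K] (π : G →* K), Function.Surjective π →
      (∀ g, (∀ i ∈ s, f i g = 1) → π g = 1) →
      (∀ g, π g = 1 → ∀ i ∈ s, f i g = 1) → X K := by
  classical
  induction s using Finset.induction_on with
  | empty => intro h; exact absurd h (by simp)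
  | insert a s ha ih =>
    intro _ K _ π hπ h1 h2
    rcases s.eq_empty_or_nonempty with rfl | hs
    · -- K ≅ H
      have hk : (f a).ker = π.ker := by
        ext g
        rw [MonoidHom.mem_ker, MonoidHom.mem_ker]
        constructor
        · intro hg
          exact h1 g (by intro i hi; simp at hi; subst hi; exact hg)
        · intro hg
          exact h2 g hg a (by simp)
      have e1 := hX.iso _ _ hH
        (QuotientGroup.quotientKerEquivOfSurjective (f a) (hf a (by simp))).symm
      have e2 := hX.iso _ _ e1 (QuotientGroup.quotientMulEquivOfEq hk)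
      exact hX.iso _ _ e2 (QuotientGroup.quotientKerEquivOfSurjective π hπ)
    · -- the quotient by the intersection of the kernels over s
      let N : Subgroup G := ⨅ i : s, (f i.1).ker
      have hN : N.Normal := Subgroup.normal_iInf_normal (fun i => inferInstance)
      have hmem : ∀ g, g ∈ N ↔ ∀ i ∈ s, f i g = 1 := by
        intro g
        simp only [N, Subgroup.mem_iInf, MonoidHom.mem_ker]
        constructor
        · intro h i hi
          exact h ⟨i, hi⟩
        · intro h i
          exact h i.1 i.2
      have hQ : X (G ⧸ N) := by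
        refine ih (fun i hi => hf i (by simp [hi])) hs (G ⧸ N) (QuotientGroup.mk' N)
          (QuotientGroup.mk'_surjective N) ?_ ?_
        · intro g hg
          rw [QuotientGroup.mk'_apply, QuotientGroup.eq_one_iff]
          exact (hmem g).2 hg
        · intro g hg
          rw [QuotientGroup.mk'_apply, QuotientGroup.eq_one_iff] at hg
          exact (hmem g).1 hg
      -- maps K → G/N and K → H
      have hker : π.ker ≤ N := by
        intro g hg
        rw [MonoidHom.mem_ker] at hg
        exact (hmem g).2 (fun i hi => h2 g hg i (by simp [hi]))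
      have hker2 : π.ker ≤ (f a).ker := by
        intro g hg
        rw [MonoidHom.mem_ker] at hg
        exact h2 g hg a (by simp)
      have lift : ∀ {L : Type} [Group L] (φ : G →* L), π.ker ≤ φ.ker →
          ∃ ψ : K →* L, ∀ g, ψ (π g) = φ g := by
        intro L _ φ hφ
        let e := QuotientGroup.quotientKerEquivOfSurjective π hπ
        refine ⟨(QuotientGroup.lift π.ker φ hφ).comp e.symm.toMonoidHom, ?_⟩
        intro g
        have : e.symm (π g) = (g : G ⧸ π.ker) := by
          rw [MulEquiv.symm_apply_eq]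
          rfl
        simp [this]
      obtain ⟨ψ₁, hψ₁⟩ := lift (QuotientGroup.mk' N) (by rw [QuotientGroup.ker_mk']; exact hker)
      obtain ⟨ψ₂, hψ₂⟩ := lift (f a) hker2
      refine hX.two hQ hH ψ₁ ψ₂ ?_ ?_ ?_
      · intro y
        obtain ⟨g, hg⟩ := QuotientGroup.mk'_surjective N y
        exact ⟨π g, by rw [hψ₁, hg]⟩
      · intro y
        obtain ⟨g, hg⟩ := hf a (by simp) y
        exact ⟨π g, by rw [hψ₂, hg]⟩
      · intro k hk1 hk2
        obtain ⟨g, rfl⟩ := hπ k
        rw [hψ₁, QuotientGroup.mk'_apply, QuotientGroup.eq_one_iff] at hk1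
        rw [hψ₂] at hk2
        refine h1 g ?_
        intro i hi
        rcases Finset.mem_insert.1 hi with rfl | hi
        · exact hk2
        · exact (hmem g).1 hk1 i hi

end Pool.Agent.H463R4.FO
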