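import Pool.Agent.H463R4.FO.Defs
import Pool.Agent.H172.Form.Prime

set_option autoImplicit false

/-! # Necessity: structure of the groups (helper463) -/

namespace Pool.Agent.H463R4.FO

open Pool.Agent.H172.Form
open scoped commutatorElement

/-- all normal subgroups of `G` are perfect modulo `L` -/
def RelPerf {G : Type} [Group G] (L : Subgroup G) : Prop :=
  ∀ H : Subgroup G, H.Normal → H ≤ ⁅H, H⁆ ⊔ L

section
variable {G : Type} [Group G]

theorem relPerf_bot : RelPerf (⊥ : Subgroup G) ↔ NormPerfect G := by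
  constructor
  · intro h H hH
    have := h H hH
    rw [sup_bot_eq] at this
    exact le_antisymm (Subgroup.commutator_le_left H H) this
  · intro h H hH
    rw [sup_bot_eq, h H hH]

theorem relPerf_of (L : Subgroup G) [L.Normal] (h : NormPerfect (G ⧸ L)) : RelPerf L := by
  intro H hH
  have hbar := h (H.map (QuotientGroup.mk' L)) (hH.map _ (QuotientGroup.mk'_surjective L))
  rw [← Subgroup.map_commutator] at hbar
  intro x hx
  have h3 : QuotientGroup.mk' L x ∈ H.map (QuotientGroup.mk' L) := ⟨x, hx, rfl⟩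
  rw [← hbar] at h3
  obtain ⟨c, hc, hcx⟩ := h3
  have h4 : c⁻¹ * x ∈ L := QuotientGroup.eq.1 hcx
  have h5 : x = c * (c⁻¹ * x) := by group
  rw [h5]
  exact Subgroup.mul_mem _ (Subgroup.mem_sup_left hc) (Subgroup.mem_sup_right h4)

theorem relPerf_inf (N₁ N₂ : Subgroup G) [h1n : N₁.Normal] [h2n : N₂.Normal] (h₁ : RelPerf N₁)
    (h₂ : RelPerf N₂) : RelPerf (N₁ ⊓ N₂) := by
  intro H hH
  have hA : (H ⊓ N₁).Normal := inferInstance
  have hA1 : H ⊓ N₁ ≤ ⁅H, H⁆ ⊔ (N₁ ⊓ N₂) := by
    intro a ha
    obtain ⟨c, hc, y, hy, rfl⟩ := Subgroup.mem_sup_of_normal_right.1 (h₂ (H ⊓ N₁) hA ha)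
    have hc1 : c ∈ H ⊓ N₁ := Subgroup.commutator_le_left _ _ hc
    have hy1 : y ∈ H ⊓ N₁ := by
      have := (H ⊓ N₁).mul_mem ((H ⊓ N₁).inv_mem hc1) ha
      simpa using this
    have hc2 : c ∈ ⁅H, H⁆ := Subgroup.commutator_mono inf_le_left inf_le_left hc
    exact Subgroup.mul_mem _ (Subgroup.mem_sup_left hc2)
      (Subgroup.mem_sup_right ⟨hy1.2, hy⟩)
  intro x hx
  obtain ⟨c, hc, y, hy, rfl⟩ := Subgroup.mem_sup_of_normal_right.1 (h₁ H hH hx)
  have hc1 : c ∈ H := Subgroup.commutator_le_left _ _ hc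
  have hy1 : y ∈ H := by
    have := H.mul_mem (H.inv_mem hc1) hx
    simpa using this
  exact Subgroup.mul_mem _ (Subgroup.mem_sup_left hc) (hA1 ⟨hy1, hy⟩)

theorem normPerfect_surj {H : Type} [Group H] (f : G →* H) (hf : Function.Surjective f)
    (h : NormPerfect G) : NormPerfect H := by
  intro K hK
  have h1 := h (K.comap f) (hK.comap f)
  have h2 : (K.comap f).map f = K := Subgroup.map_comap_eq_self_of_surjective hf K
  rw [← h2, ← Subgroup.map_commutator, h1]

/-- minimal normal subgroups exist -/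
theorem exists_min [Finite G] (L : Subgroup G) (hL : L.Normal) (h0 : L ≠ ⊥) :
    ∃ M : Subgroup G, M.Normal ∧ M ≤ L ∧ M ≠ ⊥ ∧
      ∀ W : Subgroup G, W.Normal → W ≤ M → W ≠ ⊥ → W = M := by
  obtain ⟨M, ⟨hM1, hM2, hM3⟩, hmin⟩ := (wellFounded_lt (α := Subgroup G)).has_min
    {M : Subgroup G | M.Normal ∧ M ≤ L ∧ M ≠ ⊥} ⟨L, hL, le_rfl, h0⟩
  refine ⟨M, hM1, hM2, hM3, ?_⟩
  intro W hW hWM hW0
  by_contra hne
  exact hmin W ⟨hW, hWM.trans hM2, hW0⟩ (lt_of_le_of_ne hWM hne)

/-- a minimal normal subgroup which is not abelian meets its centralizer trivially -/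
theorem min_inf_centralizer {M : Subgroup G} (hM : M.Normal)
    (hmin : ∀ W : Subgroup G, W.Normal → W ≤ M → W ≠ ⊥ → W = M)
    (hna : ¬ ∀ x ∈ M, ∀ y ∈ M, x * y = y * x) :
    M ⊓ Subgroup.centralizer (M : Set G) = ⊥ := by
  by_contra h0
  have hn : (M ⊓ Subgroup.centralizer (M : Set G)).Normal := by
    have : (Subgroup.centralizer (M : Set G)).Normal := inferInstance
    infer_instance
  have h1 := hmin _ hn inf_le_left h0
  apply hna
  intro x hx y hy
  rw [← h1] at hy
  exact (Subgroup.mem_centralizer_iff.1 hy.2 x hx)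

/-- the quotient by the centralizer of a nonabelian minimal normal subgroup is a prime group -/
theorem prime_quot {M : Subgroup G} (hM : M.Normal)
    (hmin : ∀ W : Subgroup G, W.Normal → W ≤ M → W ≠ ⊥ → W = M)
    (hna : ¬ ∀ x ∈ M, ∀ y ∈ M, x * y = y * x) :
    IsPrimeGroup (G ⧸ Subgroup.centralizer (M : Set G)) := by
  set C := Subgroup.centralizer (M : Set G) with hC
  have key : ∀ A : Subgroup (G ⧸ C), A.Normal → A ≠ ⊥ → M ≤ A.comap (QuotientGroup.mk' C) := by
    intro A hA hA0
    have hAn : (A.comap (QuotientGroup.mk' C)).Normal := hA.comap _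
    by_cases h0 : M ⊓ A.comap (QuotientGroup.mk' C) = ⊥
    · exfalso
      apply hA0
      -- then A' centralises M
      have h1 : A.comap (QuotientGroup.mk' C) ≤ C := by
        intro a ha
        rw [hC, Subgroup.mem_centralizer_iff]
        intro m hm
        have h2 : ⁅m, a⁆ ∈ M ⊓ A.comap (QuotientGroup.mk' C) :=
          Subgroup.commutator_le_inf M _ (Subgroup.commutator_mem_commutator hm ha)
        rw [h0, Subgroup.mem_bot, commutatorElement_eq_one_iff_mul_comm] at h2
        exact h2
      rw [eq_bot_iff]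
      intro a ha
      obtain ⟨z, rfl⟩ := QuotientGroup.mk'_surjective C a
      exact Subgroup.mem_bot.2 ((QuotientGroup.eq_one_iff z).2 (h1 ha))
    · have h1 := hmin _ (by infer_instance) inf_le_left h0
      exact h1.symm.le.trans inf_le_right
  intro A B hA hB hA0 hB0 hAB
  apply hna
  intro x hx y hy
  have hxA := key A hA hA0 hx
  have hyB := key B hB hB0 hy
  have h1 : ⁅x, y⁆ ∈ M ⊓ C := by
    refine ⟨Subgroup.commutator_le_left M M (Subgroup.commutator_mem_commutator hx hy), ?_⟩
    have h2 : QuotientGroup.mk' C ⁅x, y⁆ ∈ ⁅A, B⁆ := by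
      rw [map_commutatorElement]
      exact Subgroup.commutator_mem_commutator hxA hyB
    rw [hAB, Subgroup.mem_bot] at h2
    exact (QuotientGroup.eq_one_iff _).1 h2
  rw [min_inf_centralizer hM hmin hna, Subgroup.mem_bot, commutatorElement_eq_one_iff_mul_comm] at h1
  exact h1

/-- no nontrivial abelian normal subgroup -/
def RadFree (G : Type) [Group G] : Prop :=
  ∀ A : Subgroup G, A.Normal → (∀ x ∈ A, ∀ y ∈ A, x * y = y * x) → A = ⊥

theorem primeGroup_radFree (h : IsPrimeGroup G) : RadFree G := by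
  intro A hA hab
  by_contra h0
  apply h A A hA hA h0 h0
  rw [eq_bot_iff, Subgroup.commutator_le]
  intro x hx y hy
  rw [Subgroup.mem_bot, commutatorElement_eq_one_iff_mul_comm]
  exact hab x hx y hy

/-- the central property of abelian minimal normal subgroups -/
def CentralProp (F : Formation) : Prop :=
  ∀ (G : Type) [Group G], F.mem G → ∀ V : Subgroup G, V.Normal → V ≠ ⊥ →
    (∀ W : Subgroup G, W.Normal → W ≤ V → W ≠ ⊥ → W = V) →
    (∀ x ∈ V, ∀ y ∈ V, x * y = y * x) → V ≤ Subgroup.center G

/-- a normal subgroup of a group without abelian normal subgroups has none either -/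
theorem radFree_sub (F : Formation) (hC : CentralProp F) [Finite G] (hG : RadFree G) (N : Subgroup G)
    (hN : N.Normal) (hNF : F.mem N) : RadFree N := by
  intro A hA hab
  by_contra h0
  obtain ⟨V, hV1, hV2, hV3, hV4⟩ := exists_min A hA h0
  have hVc := hC N hNF V hV1 hV3 hV4 (fun x hx y hy => hab x (hV2 hx) y (hV2 hy))
  have hZn : ((Subgroup.center N).map N.subtype).Normal := by
    haveI := hN
    infer_instance
  have hZ : (Subgroup.center N).map N.subtype = ⊥ := by
    apply hG _ hZn
    rintro _ ⟨x, hx, rfl⟩ _ ⟨y, hy, rfl⟩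
    have := Subgroup.mem_center_iff.1 hx y
    have h2 := congrArg N.subtype this
    simpa using h2.symm
  rw [Subgroup.map_eq_bot_iff_of_injective _ N.subtype_injective] at hZ
  rw [hZ] at hVc
  exact hV3 (eq_bot_iff.2 hVc)

theorem normPerfect_ext [Finite G] (N : Subgroup G) (hN : N.Normal) (hNP : NormPerfect N)
    (hmax : ∀ W : Subgroup G, W.Normal → N ≤ W → W ≠ ⊤ → W = N)
    (hna : ¬ ⁅(⊤ : Subgroup G), ⊤⁆ ≤ N) : NormPerfect G := by
  have sub : ∀ H : Subgroup G, H.Normal → H ≤ N → ⁅H, H⁆ = H := by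
    intro H hH hHN
    have h1 := hNP (H.subgroupOf N) (hH.subgroupOf N)
    have h2 := congrArg (Subgroup.map N.subtype) h1
    rw [Subgroup.map_commutator, Subgroup.subgroupOf_map_subtype, inf_eq_left.2 hHN] at h2
    exact h2
  intro H hH
  by_cases hHN : H ≤ N
  · exact sub H hH hHN
  refine le_antisymm (Subgroup.commutator_le_left H H) ?_
  have hHNt : H ⊔ N = ⊤ := by
    by_contra hne
    have := hmax (H ⊔ N) inferInstance le_sup_right hne
    exact hHN (le_sup_left.trans this.le)
  have hc : ⁅H, H⁆ ⊔ N = ⊤ := by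
    by_contra hne
    have h1 := hmax (⁅H, H⁆ ⊔ N) inferInstance le_sup_right hne
    have h2 : ⁅H, H⁆ ≤ N := le_sup_left.trans h1.le
    apply hna
    rw [← hHNt, Subgroup.commutator_le]
    intro x hx y hy
    obtain ⟨a, ha, b, hb, rfl⟩ := Subgroup.mem_sup_of_normal_right.1 hx
    obtain ⟨c, hc, d, hd, rfl⟩ := Subgroup.mem_sup_of_normal_right.1 hy
    rw [← QuotientGroup.eq_one_iff, ← QuotientGroup.mk'_apply, map_commutatorElement, map_mul, map_mul]
    have hb' : QuotientGroup.mk' N b = 1 := (QuotientGroup.eq_one_iff b).2 hb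
    have hd' : QuotientGroup.mk' N d = 1 := (QuotientGroup.eq_one_iff d).2 hd
    rw [hb', hd', mul_one, mul_one, ← map_commutatorElement]
    exact (QuotientGroup.eq_one_iff _).2 (h2 (Subgroup.commutator_mem_commutator ha hc))
  have hHn : ⁅H ⊓ N, H ⊓ N⁆ = H ⊓ N := sub _ inferInstance inf_le_right
  intro x hx
  have hx' : x ∈ ⁅H, H⁆ ⊔ N := by rw [hc]; trivial
  obtain ⟨c, hc, y, hy, rfl⟩ := Subgroup.mem_sup_of_normal_right.1 hx'
  have hc1 : c ∈ H := Subgroup.commutator_le_left _ _ hc
  have hy1 : y ∈ H := by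
    have := H.mul_mem (H.inv_mem hc1) hx
    simpa using this
  have hy2 : y ∈ ⁅H ⊓ N, H ⊓ N⁆ := by rw [hHn]; exact ⟨hy1, hy⟩
  exact Subgroup.mul_mem _ hc (Subgroup.commutator_mono inf_le_left inf_le_left hy2)

end

theorem abelian_top_case (F : Formation) (h : F.AllSub) (G : Type) [Group G] [Finite G] (hG : F.mem G)
    (N : Subgroup G) [hN : N.Normal] (hlt : Nat.card N < Nat.card G) (hNP : NormPerfect N)
    (hab : ⁅(⊤ : Subgroup G), ⊤⁆ ≤ N) (hRN : RadFree N) (M : Subgroup G) [hM : M.Normal]
    (hM0 : M ≠ ⊥) (hMN : M ≤ N) (hmono : ∀ A : Subgroup G, A.Normal → A ≠ ⊥ → M ≤ A) : False := by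
  classical
  have hMN0 : M.subgroupOf N ≠ ⊥ := by
    intro h0
    apply hM0
    have := congrArg (Subgroup.map N.subtype) h0
    rwa [Subgroup.subgroupOf_map_subtype, inf_eq_left.2 hMN, Subgroup.map_bot] at this
  obtain ⟨A, hA1, hA2, hA3, hA4⟩ := exists_min (M.subgroupOf N) (hM.subgroupOf N) hMN0
  have hAna : ¬ ∀ x ∈ A, ∀ y ∈ A, x * y = y * x := fun hh => hA3 (hRN A hA1 hh)
  have hAC := min_inf_centralizer hA1 hA4 hAna
  set C := Subgroup.centralizer (A : Set N) with hCdef
  have hCn : C.Normal := by rw [hCdef]; infer_instance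
  have hprime : IsPrimeGroup (N ⧸ C) := prime_quot hA1 hA4 hAna
  have notle : ¬ A ≤ C := by
    intro hle
    rw [inf_eq_left.2 hle] at hAC
    exact hA3 hAC
  obtain ⟨f, hf⟩ := prime_quotient F h G hG N hN (N ⧸ C) hprime
    ⟨QuotientGroup.mk' C, QuotientGroup.mk'_surjective C⟩
  have hQP : NormPerfect (N ⧸ C) := normPerfect_surj (QuotientGroup.mk' C)
    (QuotientGroup.mk'_surjective C) hNP
  have hQtop : ⁅(⊤ : Subgroup (N ⧸ C)), ⊤⁆ = ⊤ := hQP ⊤ inferInstance
  have hfN : N.map f = ⊤ := by
    rw [eq_top_iff, ← hQtop]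
    have : (⊤ : Subgroup (N ⧸ C)) = (⊤ : Subgroup G).map f := by
      rw [← MonoidHom.range_eq_map, MonoidHom.range_eq_top.2 hf]
    rw [this, ← Subgroup.map_commutator]
    exact Subgroup.map_mono hab
  have hker : f.ker ≠ ⊥ := by
    intro h0
    have hinj : Function.Injective f := (MonoidHom.ker_eq_bot_iff f).1 h0
    have h1 : Nat.card G ≤ Nat.card (N ⧸ C) := Nat.card_le_card_of_injective f hinj
    have h2 : Nat.card (N ⧸ C) ≤ Nat.card N :=
      Nat.card_le_card_of_surjective _ (QuotientGroup.mk'_surjective C)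
    omega
  have hMker : M ≤ f.ker := hmono _ inferInstance hker
  let φ : N →* N ⧸ C := f.comp N.subtype
  have hφ : Function.Surjective φ := by
    intro q
    have : q ∈ N.map f := by rw [hfN]; trivial
    obtain ⟨x, hx, rfl⟩ := this
    exact ⟨⟨x, hx⟩, rfl⟩
  have hMφ : M.subgroupOf N ≤ φ.ker := by
    intro x hx
    exact hMker hx
  -- cardinalities
  have hcard : Nat.card φ.ker = Nat.card C := by
    have h1 := Subgroup.card_eq_card_quotient_mul_card_subgroup φ.ker
    have h2 := Subgroup.card_eq_card_quotient_mul_card_subgroup C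
    have h3 : Nat.card (N ⧸ φ.ker) = Nat.card (N ⧸ C) :=
      Nat.card_congr (QuotientGroup.quotientKerEquivOfSurjective φ hφ).toEquiv
    rw [h3] at h1
    rw [h1] at h2
    exact Nat.eq_of_mul_eq_mul_left Nat.card_pos h2
  have hconj : ∀ g : G, (C.map (MulAut.conjNormal g : MulAut N).toMonoidHom).map φ ≠ ⊥ := by
    intro g h0
    rw [Subgroup.map_eq_bot_iff] at h0
    have hc : Nat.card (C.map (MulAut.conjNormal g : MulAut N).toMonoidHom) = Nat.card C :=
      (Nat.card_congr (C.equivMapOfInjective _ (MulEquiv.injective _)).toEquiv).symm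
    have heq := Subgroup.eq_of_le_of_card_ge h0 (by rw [hc, hcard])
    apply notle
    refine hA2.trans ?_
    intro m hm
    have h1 : (MulAut.conjNormal g : MulAut N) m ∈ M.subgroupOf N := by
      rw [Subgroup.mem_subgroupOf, MulAut.conjNormal_apply]
      exact hM.conj_mem _ hm g
    have h2 := hMφ h1
    rw [← heq] at h2
    obtain ⟨c, hc, hcm⟩ := h2
    have : c = m := (MulEquiv.injective (MulAut.conjNormal g : MulAut N)) hcm
    rw [← this]; exact hc
  obtain ⟨K, ⟨hK1, hK2⟩, hKmin⟩ := (wellFounded_lt (α := Subgroup N)).has_min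
    {K : Subgroup N | K.Normal ∧ K.map φ ≠ ⊥} ⟨⊤, inferInstance, by
      intro h0
      have h1 := hconj 1
      apply h1
      rw [eq_bot_iff, ← h0]
      exact Subgroup.map_mono le_top⟩
  have hKle : ∀ D : Subgroup N, D.Normal → D.map φ ≠ ⊥ → K ≤ D := by
    intro D hD hD0
    have hin : (K ⊓ D).map φ ≠ ⊥ := by
      intro h0
      apply hprime (K.map φ) (D.map φ) (hK1.map _ hφ) (hD.map _ hφ) hK2 hD0
      rw [← Subgroup.map_commutator, eq_bot_iff, ← h0]
      exact Subgroup.map_mono (Subgroup.commutator_le_inf K D)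
    by_contra hne
    refine hKmin (K ⊓ D) ⟨inferInstance, hin⟩ (lt_of_le_of_ne inf_le_left ?_)
    intro h1
    exact hne (inf_eq_left.1 h1)
  have hcore : K.map N.subtype ≤ (C.map N.subtype).normalCore := by
    rintro _ ⟨k, hk, rfl⟩
    intro g
    have h1 : K ≤ C.map (MulAut.conjNormal g⁻¹ : MulAut N).toMonoidHom :=
      hKle _ (hCn.map _ (MulEquiv.surjective _)) (hconj g⁻¹)
    obtain ⟨c, hc, hck⟩ := h1 hk
    refine ⟨c, hc, ?_⟩
    have h2 : ((MulAut.conjNormal g⁻¹ : MulAut N) c : N) = k := hck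
    have h3 := congrArg (Subtype.val) h2
    rw [MulAut.conjNormal_apply] at h3
    show (c : G) = g * (k : G) * g⁻¹
    rw [← h3]; group
  have hcore0 : (C.map N.subtype).normalCore ≠ ⊥ := by
    intro h0
    rw [h0, le_bot_iff, Subgroup.map_eq_bot_iff_of_injective _ N.subtype_injective] at hcore
    exact hK2 (by rw [hcore, Subgroup.map_bot])
  have hMC : M ≤ C.map N.subtype :=
    (hmono _ inferInstance hcore0).trans (Subgroup.normalCore_le _)
  apply notle
  refine hA2.trans ?_
  intro m hm
  obtain ⟨c, hc, hcm⟩ := hMC hm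
  have : c = m := Subtype.ext hcm
  rw [← this]; exact hc

theorem radFree_normPerfect (F : Formation) (h : F.AllSub) (hC : CentralProp F) (m : ℕ) :
    ∀ (G : Type) [Group G], F.mem G → Nat.card G ≤ m → RadFree G → NormPerfect G := by
  induction m with
  | zero =>
    intro G _ hG hc
    have := F.fin G hG
    have := Nat.card_pos (α := G)
    omega
  | succ m ih =>
    intro G _ hG hc hrad
    have hfin := F.fin G hG
    by_contra hnot
    obtain ⟨L, ⟨hL1, hL2⟩, hLmin⟩ := (wellFounded_lt (α := Subgroup G)).has_min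
      {L : Subgroup G | L.Normal ∧ RelPerf L} ⟨⊤, inferInstance, fun H _ => le_top.trans le_sup_right⟩
    have hLle : ∀ D : Subgroup G, D.Normal → RelPerf D → L ≤ D := by
      intro D hD hDR
      by_contra hne
      refine hLmin (L ⊓ D) ⟨inferInstance, relPerf_inf L D hL2 hDR⟩ (lt_of_le_of_ne inf_le_left ?_)
      intro h1
      exact hne (inf_eq_left.1 h1)
    have hL0 : L ≠ ⊥ := by
      intro h0
      rw [h0] at hL2
      exact hnot (relPerf_bot.1 hL2)
    obtain ⟨M, hM1, hM2, hM3, hM4⟩ := exists_min L hL1 hL0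
    have hMna : ¬ ∀ x ∈ M, ∀ y ∈ M, x * y = y * x := fun hh => hM3 (hrad M hM1 hh)
    have hMC := min_inf_centralizer hM1 hM4 hMna
    have hCbot : Subgroup.centralizer (M : Set G) = ⊥ := by
      by_contra h0
      have hp := prime_quot hM1 hM4 hMna
      have hcard : Nat.card (G ⧸ Subgroup.centralizer (M : Set G)) < Nat.card G := by
        have h1 := Subgroup.card_eq_card_quotient_mul_card_subgroup (Subgroup.centralizer (M : Set G))
        have h2 : 1 < Nat.card (Subgroup.centralizer (M : Set G)) := by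
          rw [Finite.one_lt_card_iff_nontrivial, Subgroup.nontrivial_iff_ne_bot]
          exact h0
        have h3 : 0 < Nat.card (G ⧸ Subgroup.centralizer (M : Set G)) := Nat.card_pos
        rw [h1]
        nlinarith
      have h4 := ih (G ⧸ Subgroup.centralizer (M : Set G)) (F.quot G _ hG) (by omega) (primeGroup_radFree hp)
      have h5 := hLle _ inferInstance (relPerf_of _ h4)
      rw [inf_eq_left.2 (hM2.trans h5)] at hMC
      exact hM3 hMC
    have hmono : ∀ A : Subgroup G, A.Normal → A ≠ ⊥ → M ≤ A := by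
      intro A hA hA0
      by_contra hne
      have h1 : M ⊓ A = ⊥ := by
        by_contra h2
        have := hM4 _ (by infer_instance) inf_le_left h2
        exact hne (inf_eq_left.1 this)
      apply hA0
      rw [eq_bot_iff, ← hCbot]
      intro a ha
      rw [Subgroup.mem_centralizer_iff]
      intro x hx
      have h2 : ⁅x, a⁆ ∈ M ⊓ A :=
        Subgroup.commutator_le_inf M _ (Subgroup.commutator_mem_commutator hx ha)
      rw [h1, Subgroup.mem_bot, commutatorElement_eq_one_iff_mul_comm] at h2
      exact h2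
    -- a maximal normal subgroup
    have htop : (⊥ : Subgroup G) ≠ ⊤ := by
      intro h0
      exact hM3 (le_bot_iff.1 (le_top.trans h0.symm.le))
    obtain ⟨N, ⟨hN1, hN2⟩, hNmax⟩ := (wellFounded_gt (α := Subgroup G)).has_min
      {N : Subgroup G | N.Normal ∧ N ≠ ⊤} ⟨⊥, inferInstance, htop⟩
    have hmax : ∀ W : Subgroup G, W.Normal → N ≤ W → W ≠ ⊤ → W = N := by
      intro W hW hNW hW2
      by_contra hne
      exact hNmax W ⟨hW, hW2⟩ (lt_of_le_of_ne hNW (Ne.symm hne))
    have hNF : F.mem N := h F (fun _ _ hh => hh) G hG N hN1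
    have hRN : RadFree N := radFree_sub F hC hrad N hN1 hNF
    have hlt : Nat.card N < Nat.card G := by
      have h1 := Subgroup.card_le_card_group N
      rcases h1.lt_or_eq with h2 | h2
      · exact h2
      · exact absurd (Subgroup.eq_top_of_card_eq N h2) hN2
    have hNP : NormPerfect N := ih N hNF (by omega) hRN
    by_cases hab : ⁅(⊤ : Subgroup G), ⊤⁆ ≤ N
    · have hN0 : N ≠ ⊥ := by
        intro h0
        apply htop
        symm
        apply hrad ⊤ inferInstance
        intro x _ y _
        have := hab (Subgroup.commutator_mem_commutator (Subgroup.mem_top x) (Subgroup.mem_top y))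
        rw [h0, Subgroup.mem_bot, commutatorElement_eq_one_iff_mul_comm] at this
        exact this
      exact abelian_top_case F h G hG N hlt hNP hab hRN M hM3 (hmono N hN1 hN0) hmono
    · exact hnot (normPerfect_ext N hN1 hNP hmax hab)

theorem good (F : Formation) (h : F.AllSub) (hC : CentralProp F) (m : ℕ) :
    ∀ (G : Type) [Group G], F.mem G → Nat.card G ≤ m →
      ∃ n, NormPerfect (G ⧸ Subgroup.upperCentralSeries G n) := by
  induction m with
  | zero =>
    intro G _ hG hc
    have := F.fin G hG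
    have := Nat.card_pos (α := G)
    omega
  | succ m ih =>
    intro G _ hG hc
    have hfin := F.fin G hG
    by_cases hrad : RadFree G
    · exact ⟨0, normPerfect_surj (QuotientGroup.mk' _) (QuotientGroup.mk'_surjective _)
        (radFree_normPerfect F h hC (m+1) G hG hc hrad)⟩
    · simp only [RadFree, not_forall] at hrad
      obtain ⟨A, hA, hab, hA0⟩ := hrad
      obtain ⟨V, hV1, hV2, hV3, hV4⟩ := exists_min A hA hA0
      have hVc := hC G hG V hV1 hV3 hV4 (fun x hx y hy => hab x (hV2 hx) y (hV2 hy))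
      have hcard : Nat.card (G ⧸ V) < Nat.card G := by
        have h1 := Subgroup.card_eq_card_quotient_mul_card_subgroup V
        have h2 : 1 < Nat.card V := by
          rw [Finite.one_lt_card_iff_nontrivial, Subgroup.nontrivial_iff_ne_bot]
          exact hV3
        have h3 : 0 < Nat.card (G ⧸ V) := Nat.card_pos
        rw [h1]
        nlinarith
      obtain ⟨n, hn⟩ := ih (G ⧸ V) (F.quot G V hG) (by omega)
      refine ⟨n + 1, ?_⟩
      have hle : ∀ k, ∀ x : G, (QuotientGroup.mk' V x) ∈ Subgroup.upperCentralSeries (G ⧸ V) k →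
          x ∈ Subgroup.upperCentralSeries G (k + 1) := by
        intro k
        induction k with
        | zero =>
          intro x hx
          rw [Subgroup.upperCentralSeries_zero, Subgroup.mem_bot] at hx
          have hxV : x ∈ V := (QuotientGroup.eq_one_iff x).1 hx
          rw [Subgroup.upperCentralSeries_one]
          exact hVc hxV
        | succ k ihk =>
          intro x hx
          rw [Subgroup.mem_upperCentralSeries_succ_iff] at hx ⊢
          intro y
          apply ihk
          rw [map_commutatorElement]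
          exact hx _
      have hV' : V ≤ Subgroup.upperCentralSeries G (n + 1) := by
        intro x hx
        apply hle
        have : QuotientGroup.mk' V x = 1 := (QuotientGroup.eq_one_iff x).2 hx
        rw [this]
        exact Subgroup.one_mem _
      let f₁ : G ⧸ V →* G ⧸ Subgroup.upperCentralSeries G (n + 1) :=
        QuotientGroup.lift V (QuotientGroup.mk' _) (by
          intro x hx
          exact (QuotientGroup.eq_one_iff x).2 (hV' hx))
      let f₂ : (G ⧸ V) ⧸ Subgroup.upperCentralSeries (G ⧸ V) n →*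
          G ⧸ Subgroup.upperCentralSeries G (n + 1) :=
        QuotientGroup.lift _ f₁ (by
          intro x hx
          obtain ⟨g, rfl⟩ := QuotientGroup.mk'_surjective V x
          exact (QuotientGroup.eq_one_iff g).2 (hle n g hx))
      refine normPerfect_surj f₂ ?_ hn
      intro q
      obtain ⟨g, rfl⟩ := QuotientGroup.mk'_surjective _ q
      exact ⟨QuotientGroup.mk' _ (QuotientGroup.mk' V g), rfl⟩

end Pool.Agent.H463R4.FO
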