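import Pool.Agent.H463R4.FO.Suff
import Pool.Agent.H463R4.FO.Struct

set_option autoImplicit false

/-! # Assembly (helper463) -/

namespace Pool.Agent.H463R4.FO

open Pool.Agent.H172.Form

/-- conversion between the two forms of the definition of a formation -/
def toF (F : ∀ (G : Type) [Group G], Prop) (hF : IsFormation F) : Formation where
  mem := F
  fin := hF.fin
  iso G H _ _ e h := hF.iso G H h e
  quot G _ N _ h := hF.quot G N h
  inter G _ _ N₁ N₂ _ _ h₁ h₂ := hF.inf G N₁ N₂ h₁ h₂

theorem ofF (F : Formation) : IsFormation F.mem where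
  fin := F.fin
  iso G H _ _ h e := F.iso G H e h
  quot G _ N _ h := F.quot G N h
  inf G _ _ N₁ N₂ _ _ h₁ h₂ := F.inter G N₁ N₂ h₁ h₂

theorem allSub_iff (F : ∀ (G : Type) [Group G], Prop) (hF : IsFormation F) :
    (toF F hF).AllSub ↔ AllSubSn F := by
  constructor
  · intro h H hH hHF G _ N hN hG
    exact h (toF H hH) hHF G hG N hN
  · intro h H hHF G _ hG N hN
    haveI := hN
    exact h H.mem (ofF H) hHF G N hG

theorem inter_isFormation {F X : ∀ (G : Type) [Group G], Prop} (hF : IsFormation F)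
    (hX : IsFormation X) : IsFormation (fun (G : Type) [Group G] => F G ∧ X G) where
  fin G _ h := hF.fin G h.1
  iso G H _ _ h e := ⟨hF.iso G H h.1 e, hX.iso G H h.2 e⟩
  quot G _ N _ h := ⟨hF.quot G N h.1, hX.quot G N h.2⟩
  inf G _ _ N₁ N₂ _ _ h₁ h₂ := ⟨hF.inf G N₁ N₂ h₁.1 h₂.1, hX.inf G N₁ N₂ h₁.2 h₂.2⟩

/-- every formation containing `G` contains `N` -/
def InForm (G N : Type) [Group G] [Group N] : Prop :=
  ∀ X : (∀ (G : Type) [Group G], Prop), IsFormation X → X G → X N

theorem main_iff (hC : ∀ F : Formation, F.AllSub → CentralProp F)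
    (F : ∀ (G : Type) [Group G], Prop) (hF : IsFormation F) :
    AllSubSn F ↔ ∀ (G : Type) [Group G], F G →
      (∃ n, NormPerfect (G ⧸ Subgroup.upperCentralSeries G n)) ∧
      ∀ N : Subgroup G, N.Normal → ⁅N, N⁆ = N → InForm G N := by
  constructor
  · intro h G _ hG
    have h' := (allSub_iff F hF).2 h
    refine ⟨good (toF F hF) h' (hC _ h') (Nat.card G) G hG le_rfl, ?_⟩
    intro N hN _ X hX hXG
    haveI := hN
    exact (h _ (inter_isFormation hF hX) (fun _ _ hh => hh.1) G N ⟨hG, hXG⟩).2
  · intro h H hH hHF G _ N hN hG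
    obtain ⟨⟨n, hn⟩, h2⟩ := h G (hHF G hG)
    haveI := hN
    exact suff hH hG n hn (fun P hP hPP => h2 P hP hPP H hH hG) N

theorem soluble_iff (hC : ∀ F : Formation, F.AllSub → CentralProp F)
    (F : ∀ (G : Type) [Group G], Prop) (hF : IsFormation F)
    (hs : ∀ (G : Type) [Group G], F G → Group.IsSolvable G) :
    AllSubSn F ↔ ∀ (G : Type) [Group G], F G → Group.IsNilpotent G := by
  constructor
  · intro h G _ hG
    obtain ⟨⟨n, hn⟩, -⟩ := (main_iff hC F hF).1 h G hG
    haveI := hs G hG
    haveI hsq : Group.IsSolvable (G ⧸ Subgroup.upperCentralSeries G n) :=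
      Group.isSolvable_of_surjective (QuotientGroup.mk'_surjective _)
    have hder : ∀ k, derivedSeries (G ⧸ Subgroup.upperCentralSeries G n) k = ⊤ := by
      intro k
      induction k with
      | zero => rfl
      | succ k ih => rw [derivedSeries_succ, ih]; exact hn ⊤ inferInstance
    obtain ⟨k, hk⟩ := hsq.solvable
    rw [hder] at hk
    have : Subgroup.upperCentralSeries G n = ⊤ := by
      rw [eq_top_iff]
      intro x _
      have h1 : (QuotientGroup.mk' (Subgroup.upperCentralSeries G n) x) ∈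
        (⊤ : Subgroup (G ⧸ Subgroup.upperCentralSeries G n)) := trivial
      rw [hk, Subgroup.mem_bot] at h1
      exact (QuotientGroup.eq_one_iff x).1 h1
    exact ⟨⟨n, this⟩⟩
  · intro h H hH hHF G _ N hN hG
    haveI := h G (hHF G hG)
    exact neumann hH G N hG

theorem noAbelian_iff (F : ∀ (G : Type) [Group G], Prop) (hF : IsFormation F)
    (hs : ∀ (G : Type) [Group G], F G → NoAbelian G) :
    AllSubSn F ↔ ∀ (G : Type) [Group G], F G → ∀ N : Subgroup G, N.Normal →
      ∀ (M : Type) [Group M], IsPrimeGroup M → IsQuot M N → IsQuot M G := by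
  rw [← allSub_iff F hF]
  constructor
  · intro h G _ hG N hN M _ hM q
    exact prime_quotient (toF F hF) h G hG N hN M hM q
  · intro h
    exact allSub_of_prime (toF F hF) hs h

end Pool.Agent.H463R4.FO
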