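import Pool.Agent.H463R4.FO.Ref
import Pool.Agent.H206R3.FO3

set_option autoImplicit false

/-! # Final form (helper463; `centralMin` is due to helper206 and helper172) -/

namespace Pool.Agent.H463R4.FO

open Pool.Agent.H172.Form
open scoped commutatorElement

theorem centralProp (F : Formation) (h : F.AllSub) : CentralProp F := by
  intro G _ hG V hV hV0 hmin hab
  haveI := hV
  have hA : AllSubSn F.mem := (allSub_iff F.mem (ofF F)).1 h
  refine Pool.Agent.H206R3.FO3.centralMin (ofF F) hA G hG V hV ?_ ?_
  · rw [eq_bot_iff, Subgroup.commutator_le]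
    intro x hx y hy
    rw [Subgroup.mem_bot, commutatorElement_eq_one_iff_mul_comm]
    exact hab x hx y hy
  · intro U hU hUV
    by_cases h0 : U = ⊥
    · exact Or.inl h0
    · exact Or.inr (hmin U hU hUV h0)

end Pool.Agent.H463R4.FO
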