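import Pool.Agent.H463R4.FO.Defs

set_option autoImplicit false

/-! # Neumann's theorem: formations of nilpotent groups are subgroup closed (helper463) -/

namespace Pool.Agent.H463R4.FO

/-- a filtration of a group -/
structure Filt (A : Type) [Group A] where
  K : ℕ → Subgroup A
  anti : ∀ i, K (i + 1) ≤ K i
  comm : ∀ i j, ∀ x ∈ K i, ∀ y ∈ K j, x * y * x⁻¹ * y⁻¹ ∈ K (i + j)

namespace Filt
variable {A : Type} [Group A] (F : Filt A)

theorem le {i j : ℕ} (h : i ≤ j) : F.K j ≤ F.K i := by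
  induction j, h using Nat.le_induction with
  | base => exact le_rfl
  | succ n hn ih => exact (F.anti n).trans ih

theorem conj {i j : ℕ} {x y : A} (hx : x ∈ F.K i) (hy : y ∈ F.K j) : x * y * x⁻¹ ∈ F.K j := by
  have h := F.le (Nat.le_add_left j i) (F.comm i j x hx y hy)
  have h2 := (F.K j).mul_mem h hy
  simpa [mul_assoc] using h2

/-- the filtration of pairs -/
def pair : Filt (A × A) where
  K s := 
    { carrier := {p | p.1 ∈ F.K s ∧ p.1⁻¹ * p.2 ∈ F.K (s + 1)}
      one_mem' := by simp [(F.K s).one_mem, (F.K (s+1)).one_mem]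
      mul_mem' := by
        rintro ⟨a, b⟩ ⟨c, d⟩ ⟨h1, h2⟩ ⟨h3, h4⟩
        refine ⟨(F.K s).mul_mem h1 h3, ?_⟩
        simp only [Prod.mk_mul_mk] at *
        have h5 := F.conj ((F.K s).inv_mem h3) h2
        have h6 := (F.K (s+1)).mul_mem h5 h4
        have e : (a * c)⁻¹ * (b * d) = c⁻¹ * (a⁻¹ * b) * c⁻¹⁻¹ * (c⁻¹ * d) := by group
        rw [e]; exact h6
      inv_mem' := by
        rintro ⟨a, b⟩ ⟨h1, h2⟩
        refine ⟨(F.K s).inv_mem h1, ?_⟩
        simp only [Prod.fst_inv, Prod.snd_inv] at *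
        have h5 := F.conj h1 ((F.K (s+1)).inv_mem h2)
        have e : a⁻¹⁻¹ * b⁻¹ = a * (a⁻¹ * b)⁻¹ * a⁻¹ := by group
        rw [e]; exact h5 }
  anti i := by
    rintro ⟨a, b⟩ ⟨h1, h2⟩
    exact ⟨F.anti i h1, F.anti (i+1) h2⟩
  comm i j := by
    rintro ⟨a, b⟩ ⟨h1, h2⟩ ⟨c, d⟩ ⟨h3, h4⟩
    simp only at h1 h2 h3 h4
    obtain ⟨u, rfl⟩ : ∃ u, b = a * u := ⟨a⁻¹ * b, by group⟩
    obtain ⟨v, rfl⟩ : ∃ v, d = c * v := ⟨c⁻¹ * d, by group⟩
    rw [inv_mul_cancel_left] at h2 h4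
    refine ⟨F.comm i j a h1 c h3, ?_⟩
    show (a * c * a⁻¹ * c⁻¹)⁻¹ * (a * u * (c * v) * (a * u)⁻¹ * (c * v)⁻¹) ∈ F.K (i + j + 1)
    have m1 : u * (c * v) * u⁻¹ * (c * v)⁻¹ ∈ F.K (i + j + 1) := by
      have := F.comm (i+1) j u h2 (c * v) ((F.K j).mul_mem h3 (F.anti j h4))
      rwa [show i + 1 + j = i + j + 1 by ring] at this
    have m2 : v * a⁻¹ * v⁻¹ * a⁻¹⁻¹ ∈ F.K (i + j + 1) := by
      have := F.comm (j+1) i v h4 a⁻¹ ((F.K i).inv_mem h1)
      rwa [show j + 1 + i = i + j + 1 by ring] at this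
    have n1 := F.conj h1 m1
    have n2 := F.conj (F.le (Nat.zero_le i) h1) (F.conj (F.le (Nat.zero_le j) h3) m2)
    have c0 : (a * c * a⁻¹ * c⁻¹) ∈ F.K 0 := F.le (Nat.zero_le _) (F.comm i j a h1 c h3)
    have n3 := F.conj ((F.K 0).inv_mem c0) ((F.K _).mul_mem n1 n2)
    have e : (a * c * a⁻¹ * c⁻¹)⁻¹ * (a * u * (c * v) * (a * u)⁻¹ * (c * v)⁻¹) =
      (a * c * a⁻¹ * c⁻¹)⁻¹ * (a * (u * (c * v) * u⁻¹ * (c * v)⁻¹) * a⁻¹ *
        (a * (c * (v * a⁻¹ * v⁻¹ * a⁻¹⁻¹) * c⁻¹) * a⁻¹)) * (a * c * a⁻¹ * c⁻¹)⁻¹⁻¹ := by group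
    rw [e]; exact n3

end Filt

/-- The state of the induction. -/
structure State (G : Type) [Group G] (L : ℕ → Subgroup G) (n : ℕ) where
  A : Type
  grp : Group A
  F : Filt A
  ι : Type
  s : Finset ι
  f : ι → A →* G
  π : A →* G
  alpha : ∀ t, ∀ x ∈ F.K t, (∀ i ∈ s, f i x = 1) → π x ∈ L (t + n)
  beta : ∀ i ∈ s, ∀ g, ∃ x ∈ F.K 0, f i x = g ∧ π x = 1
  gamma : ∀ g, ∃ x ∈ F.K 1, π x = g
  delta : ∀ x, (∀ i ∈ s, f i x = 1) → π x = 1 → x = 1
  ne : n = 0 ∨ s.Nonempty

open Classical in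
theorem exists_state (G : Type) [Group G] (Φ : Filt G) (h1 : Φ.K 1 = ⊤) (n : ℕ) :
    Nonempty (State G Φ.K n) := by
  induction n with
  | zero =>
    refine ⟨{ A := G, grp := inferInstance, F := Φ, ι := Empty, s := ∅, f := fun i => i.elim,
              π := MonoidHom.id G, alpha := ?_, beta := ?_, gamma := ?_, delta := ?_, ne := Or.inl rfl }⟩
    · intro t x hx _; simpa using hx
    · intro i; exact i.elim
    · intro g; exact ⟨g, by rw [h1]; trivial, rfl⟩
    · intro x _ hx; exact hx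
  | succ n ih =>
    obtain ⟨S⟩ := ih
    letI := S.grp
    refine ⟨{ A := S.A × S.A, grp := inferInstance, F := S.F.pair, ι := Option (S.ι ⊕ S.ι),
              s := insert none ((S.s.image (fun i => some (Sum.inl i))) ∪
                (S.s.image (fun i => some (Sum.inr i)))),
              f := fun o => match o with
                | none => S.π.comp (MonoidHom.snd _ _)
                | some (Sum.inl i) => (S.f i).comp (MonoidHom.fst _ _)
                | some (Sum.inr i) => (S.f i).comp (MonoidHom.snd _ _),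
              π := S.π.comp (MonoidHom.fst _ _), alpha := ?_, beta := ?_, gamma := ?_, delta := ?_,
              ne := Or.inr ⟨none, by simp⟩ }⟩
    · rintro t ⟨a, b⟩ ⟨ha, hb⟩ h
      have hn := h none (by simp)
      have hl : ∀ i ∈ S.s, S.f i a = 1 := fun i hi => h (some (Sum.inl i)) (by simp [hi])
      have hr : ∀ i ∈ S.s, S.f i b = 1 := fun i hi => h (some (Sum.inr i)) (by simp [hi])
      have h2 := S.alpha (t+1) (a⁻¹ * b) hb (fun i hi => by rw [map_mul, map_inv, hl i hi, hr i hi]; simp)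
      have hn' : S.π b = 1 := hn
      rw [map_mul, map_inv, hn', mul_one] at h2
      have h3 := (Φ.K _).inv_mem h2
      rw [inv_inv] at h3
      show S.π a ∈ Φ.K (t + (n+1))
      rwa [show t + (n + 1) = t + 1 + n by ring]
    · intro o ho g
      match o with
      | none =>
        obtain ⟨x, hx, hg⟩ := S.gamma g
        refine ⟨(1, x), ⟨(S.F.K 0).one_mem, by simpa using hx⟩, hg, ?_⟩
        simp
      | some (Sum.inl i) =>
        have hi : i ∈ S.s := by simpa using ho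
        obtain ⟨x, hx, hg, h1⟩ := S.beta i hi g
        exact ⟨(x, x), ⟨hx, by simp [(S.F.K 1).one_mem]⟩, hg, h1⟩
      | some (Sum.inr i) =>
        have hi : i ∈ S.s := by simpa using ho
        obtain ⟨x, hx, hg, h1⟩ := S.beta i hi g
        exact ⟨(x, x), ⟨hx, by simp [(S.F.K 1).one_mem]⟩, hg, h1⟩
    · intro g
      obtain ⟨x, hx, hg⟩ := S.gamma g
      exact ⟨(x, x), ⟨hx, by simp [(S.F.K 2).one_mem]⟩, hg⟩
    · rintro ⟨a, b⟩ h hπ
      have hn : S.π b = 1 := h none (by simp)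
      have hl : ∀ i ∈ S.s, S.f i a = 1 := fun i hi => h (some (Sum.inl i)) (by simp [hi])
      have hr : ∀ i ∈ S.s, S.f i b = 1 := fun i hi => h (some (Sum.inr i)) (by simp [hi])
      have e1 := S.delta a hl hπ
      have e2 := S.delta b hr hn
      rw [e1, e2]; rfl

theorem three_le {G : Type} [Group G] {A B C : Subgroup G} (N : Subgroup G) [N.Normal]
    (h1 : ⁅⁅B, C⁆, A⁆ ≤ N) (h2 : ⁅⁅C, A⁆, B⁆ ≤ N) : ⁅⁅A, B⁆, C⁆ ≤ N := by
  have key : ∀ S : Subgroup G, S ≤ N ↔ S.map (QuotientGroup.mk' N) = ⊥ := by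
    intro S
    rw [Subgroup.map_eq_bot_iff, QuotientGroup.ker_mk']
  rw [key, Subgroup.map_commutator, Subgroup.map_commutator] at h1 h2 ⊢
  exact Subgroup.commutator_commutator_eq_bot_of_rotate h1 h2

theorem lcs_comm (G : Type) [Group G] (n : ℕ) : ∀ m : ℕ,
    ⁅(⊤ : Subgroup G).lowerCentralSeries m, (⊤ : Subgroup G).lowerCentralSeries n⁆ ≤
      (⊤ : Subgroup G).lowerCentralSeries (m + n + 1) := by
  induction n with
  | zero => intro m; exact le_rfl
  | succ n ih =>
    intro m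
    rw [Subgroup.commutator_comm]
    change ⁅⁅(⊤ : Subgroup G).lowerCentralSeries n, ⊤⁆, (⊤ : Subgroup G).lowerCentralSeries m⁆ ≤ _
    apply three_le
    · -- ⁅⁅⊤, L m⁆, L n⁆
      rw [Subgroup.commutator_comm ⊤]
      have := ih (m + 1)
      rwa [show m + 1 + n + 1 = m + (n + 1) + 1 by ring] at this
    · -- ⁅⁅L m, L n⁆, ⊤⁆
      have h := Subgroup.commutator_mono (ih m) (le_refl (⊤ : Subgroup G))
      exact h

/-- the filtration by the lower central series -/
def lcsFilt (G : Type) [Group G] : Filt G where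
  K i := (⊤ : Subgroup G).lowerCentralSeries (i - 1)
  anti i := by
    apply Subgroup.lowerCentralSeries_antitone
    omega
  comm i j := by
    intro x hx y hy
    rcases Nat.eq_zero_or_pos i with rfl | hi
    · have h : x * y * x⁻¹ ∈ (⊤ : Subgroup G).lowerCentralSeries (j - 1) :=
        Subgroup.Normal.conj_mem inferInstance y hy x
      simpa using Subgroup.mul_mem _ h (Subgroup.inv_mem _ hy)
    rcases Nat.eq_zero_or_pos j with rfl | hj
    · have h : y * x⁻¹ * y⁻¹ ∈ (⊤ : Subgroup G).lowerCentralSeries (i - 1) :=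
        Subgroup.Normal.conj_mem inferInstance x⁻¹ (Subgroup.inv_mem _ hx) y
      have h2 := Subgroup.mul_mem _ hx h
      simpa [mul_assoc] using h2
    have h := lcs_comm G (j - 1) (i - 1) (Subgroup.commutator_mem_commutator hx hy)
    rw [show i - 1 + (j - 1) + 1 = i + j - 1 by omega] at h
    exact h

theorem neumann {X : ∀ (G : Type) [Group G], Prop} (hX : IsFormation X) (G : Type) [Group G]
    [Group.IsNilpotent G] (H : Subgroup G) (hG : X G) : X H := by
  classical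
  obtain ⟨c, hc⟩ := Subgroup.nilpotent_iff_lowerCentralSeries.1 (inferInstance : Group.IsNilpotent G)
  obtain ⟨S⟩ := exists_state G (lcsFilt G) (by simp [lcsFilt]) (c + 1)
  letI := S.grp
  -- the subgroup of the elements of `K 0` with `π x ∈ H`
  let D : Subgroup S.A := S.F.K 0 ⊓ H.comap S.π
  have hD : X D := by
    refine hX.family hG S.s (fun i => (S.f i).comp D.subtype) ?_ (S.ne.resolve_left (by omega)) D
      (MonoidHom.id D) (fun x => ⟨x, rfl⟩) ?_ ?_
    · intro i hi g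
      obtain ⟨x, hx, hg, h1⟩ := S.beta i hi g
      exact ⟨⟨x, hx, by show S.π x ∈ H; rw [h1]; exact H.one_mem⟩, hg⟩
    · rintro ⟨x, hx⟩ h
      have h2 := S.alpha 0 x hx.1 h
      have h3 : S.π x = 1 := by
        have : (lcsFilt G).K (0 + (c+1)) = ⊥ := by simpa [lcsFilt] using hc
        rw [this] at h2
        simpa using h2
      exact Subtype.ext (S.delta x h h3)
    · rintro x hx i hi
      simp only [MonoidHom.id_apply] at hx
      simp [hx]
  refine hX.surj ((S.π.comp D.subtype).codRestrict H (fun x => x.2.2)) ?_ hD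
  rintro ⟨h, hh⟩
  obtain ⟨x, hx, hg⟩ := S.gamma h
  exact ⟨⟨x, S.F.le (Nat.zero_le 1) hx, by show S.π x ∈ H; rw [hg]; exact hh⟩, Subtype.ext hg⟩

end Pool.Agent.H463R4.FO
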