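import Pool.Agent.H463R4.FO.Fin

set_option autoImplicit false

/-! # The formation generated by a finite group (helper463) -/

namespace Pool.Agent.H463R4.FO

open Pool.Agent.H172.Form

/-- `Q` is a quotient of a subgroup of a finite power of `G` that projects onto every coordinate. -/
def SubPow (G Q : Type) [Group G] [Group Q] : Prop :=
  ∃ (ι : Type) (_ : Finite ι) (D : Subgroup (ι → G)), (∀ i g, ∃ d ∈ D, d i = g) ∧ IsQuot Q D

theorem subPow_self (G : Type) [Group G] : SubPow G G :=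
  ⟨Unit, inferInstance, ⊤, fun _ g => ⟨fun _ => g, trivial, rfl⟩,
    ⟨(Pi.evalMonoidHom (fun _ : Unit => G) ()).comp (⊤ : Subgroup (Unit → G)).subtype,
      fun g => ⟨⟨fun _ => g, trivial⟩, rfl⟩⟩⟩

theorem subPow_isFormation (G : Type) [Group G] [Finite G] :
    IsFormation (fun (Q : Type) [Group Q] => SubPow G Q) where
  fin Q _ h := by
    obtain ⟨ι, _, D, _, f, hf⟩ := h
    exact Finite.of_surjective f hf
  iso Q R _ _ h e := by
    obtain ⟨ι, hι, D, hD, f, hf⟩ := h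
    exact ⟨ι, hι, D, hD, e.toMonoidHom.comp f, e.surjective.comp hf⟩
  quot Q _ N _ h := by
    obtain ⟨ι, hι, D, hD, f, hf⟩ := h
    exact ⟨ι, hι, D, hD, (QuotientGroup.mk' N).comp f, (QuotientGroup.mk'_surjective N).comp hf⟩
  inf K _ _ N₁ N₂ _ _ h₁ h₂ := by
    classical
    obtain ⟨ι₁, hι₁, D₁, hD₁, f₁, hf₁⟩ := h₁
    obtain ⟨ι₂, hι₂, D₂, hD₂, f₂, hf₂⟩ := h₂
    let D : Subgroup (ι₁ ⊕ ι₂ → G) :=
      { carrier := {d | ∃ (a : D₁) (b : D₂) (k : K), (∀ i, d (Sum.inl i) = a.1 i) ∧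
          (∀ i, d (Sum.inr i) = b.1 i) ∧ f₁ a = QuotientGroup.mk' N₁ k ∧
          f₂ b = QuotientGroup.mk' N₂ k}
        one_mem' := ⟨1, 1, 1, fun _ => rfl, fun _ => rfl, by simp, by simp⟩
        mul_mem' := by
          rintro d d' ⟨a, b, k, h1, h2, h3, h4⟩ ⟨a', b', k', h1', h2', h3', h4'⟩
          refine ⟨a * a', b * b', k * k', ?_, ?_, ?_, ?_⟩
          · intro i
            show d (Sum.inl i) * d' (Sum.inl i) = a.1 i * a'.1 i
            rw [h1, h1']
          · intro i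
            show d (Sum.inr i) * d' (Sum.inr i) = b.1 i * b'.1 i
            rw [h2, h2']
          · rw [map_mul, map_mul, h3, h3']
          · rw [map_mul, map_mul, h4, h4']
        inv_mem' := by
          rintro d ⟨a, b, k, h1, h2, h3, h4⟩
          refine ⟨a⁻¹, b⁻¹, k⁻¹, ?_, ?_, ?_, ?_⟩
          · intro i
            show (d (Sum.inl i))⁻¹ = (a.1 i)⁻¹
            rw [h1]
          · intro i
            show (d (Sum.inr i))⁻¹ = (b.1 i)⁻¹
            rw [h2]
          · rw [map_inv, map_inv, h3]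
          · rw [map_inv, map_inv, h4] }
    have hex : ∀ d : D, ∃ k : K, ∃ (a : D₁) (b : D₂), (∀ i, d.1 (Sum.inl i) = a.1 i) ∧
          (∀ i, d.1 (Sum.inr i) = b.1 i) ∧ f₁ a = QuotientGroup.mk' N₁ k ∧
          f₂ b = QuotientGroup.mk' N₂ k := by
      rintro ⟨d, a, b, k, h⟩
      exact ⟨k, a, b, h⟩
    choose κ α β hα hβ hκ₁ hκ₂ using hex
    have uniq : ∀ (d : D) (a : D₁) (b : D₂) (k : K), (∀ i, d.1 (Sum.inl i) = a.1 i) →
        (∀ i, d.1 (Sum.inr i) = b.1 i) → f₁ a = QuotientGroup.mk' N₁ k →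
        f₂ b = QuotientGroup.mk' N₂ k →
        QuotientGroup.mk' (N₁ ⊓ N₂) (κ d) = QuotientGroup.mk' (N₁ ⊓ N₂) k := by
      intro d a b k h1 h2 h3 h4
      have ea : α d = a := Subtype.ext (funext fun i => by rw [← hα d i, h1 i])
      have eb : β d = b := Subtype.ext (funext fun i => by rw [← hβ d i, h2 i])
      refine QuotientGroup.eq.2 ⟨?_, ?_⟩
      · refine QuotientGroup.eq.1 ?_
        have := (hκ₁ d).symm.trans ((congrArg f₁ ea).trans h3)
        exact this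
      · refine QuotientGroup.eq.1 ?_
        have := (hκ₂ d).symm.trans ((congrArg f₂ eb).trans h4)
        exact this
    let F : D →* K ⧸ (N₁ ⊓ N₂) := MonoidHom.mk' (fun d => QuotientGroup.mk' (N₁ ⊓ N₂) (κ d)) (by
      intro d d'
      rw [← map_mul]
      refine uniq (d * d') (α d * α d') (β d * β d') (κ d * κ d') ?_ ?_ ?_ ?_
      · intro i
        show d.1 (Sum.inl i) * d'.1 (Sum.inl i) = (α d).1 i * (α d').1 i
        rw [hα, hα]
      · intro i
        show d.1 (Sum.inr i) * d'.1 (Sum.inr i) = (β d).1 i * (β d').1 i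
        rw [hβ, hβ]
      · rw [map_mul, map_mul, hκ₁, hκ₁]
      · rw [map_mul, map_mul, hκ₂, hκ₂])
    refine ⟨ι₁ ⊕ ι₂, inferInstance, D, ?_, F, ?_⟩
    · rintro (i | i) g
      · obtain ⟨a, ha, hag⟩ := hD₁ i g
        obtain ⟨k, hk⟩ := QuotientGroup.mk'_surjective N₁ (f₁ ⟨a, ha⟩)
        obtain ⟨b, hb⟩ := hf₂ (QuotientGroup.mk' N₂ k)
        exact ⟨Sum.elim a b.1, ⟨⟨a, ha⟩, b, k, fun _ => rfl, fun _ => rfl, hk.symm, hb⟩, hag⟩
      · obtain ⟨b, hb, hbg⟩ := hD₂ i g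
        obtain ⟨k, hk⟩ := QuotientGroup.mk'_surjective N₂ (f₂ ⟨b, hb⟩)
        obtain ⟨a, ha⟩ := hf₁ (QuotientGroup.mk' N₁ k)
        exact ⟨Sum.elim a.1 b, ⟨a, ⟨b, hb⟩, k, fun _ => rfl, fun _ => rfl, ha, hk.symm⟩, hbg⟩
    · intro q
      obtain ⟨k, rfl⟩ := QuotientGroup.mk'_surjective _ q
      obtain ⟨a, ha⟩ := hf₁ (QuotientGroup.mk' N₁ k)
      obtain ⟨b, hb⟩ := hf₂ (QuotientGroup.mk' N₂ k)
      refine ⟨⟨Sum.elim a.1 b.1, ⟨a, b, k, fun _ => rfl, fun _ => rfl, ha, hb⟩⟩, ?_⟩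
      exact uniq _ a b k (fun _ => rfl) (fun _ => rfl) ha hb

theorem inForm_iff (G Q : Type) [Group G] [Group Q] [Finite G] : InForm G Q ↔ SubPow G Q := by
  classical
  constructor
  · intro h
    exact h _ (subPow_isFormation G) (subPow_self G)
  · rintro ⟨ι, hι, D, hD, f, hf⟩ X hX hG
    haveI := Fintype.ofFinite ι
    refine hX.surj f hf ?_
    rcases isEmpty_or_nonempty ι with he | hne
    · refine hX.surj (1 : G →* D) ?_ hG
      intro d
      exact ⟨1, Subtype.ext (funext fun i => he.elim i)⟩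
    · refine hX.family hG (Finset.univ : Finset ι)
        (fun i => (Pi.evalMonoidHom (fun _ : ι => G) i).comp D.subtype) ?_
        Finset.univ_nonempty D (MonoidHom.id D) (fun x => ⟨x, rfl⟩) ?_ ?_
      · intro i _ g
        obtain ⟨d, hd, hdg⟩ := hD i g
        exact ⟨⟨d, hd⟩, hdg⟩
      · intro d hd
        exact Subtype.ext (funext fun i => hd i (Finset.mem_univ i))
      · intro d hd i _
        have : d = 1 := hd
        rw [this, map_one]

end Pool.Agent.H463R4.FO
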