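import Pool.Agent.H463R4.FO.Asm

set_option autoImplicit false

/-! # The refined form of the equivalence (helper463) -/

namespace Pool.Agent.H463R4.FO

open Pool.Agent.H172.Form
open scoped commutatorElement

theorem noAbelian_surj {G H : Type} [Group G] [Group H] (f : G →* H) (hf : Function.Surjective f)
    (h : NoAbelian G) : NoAbelian H := by
  intro K hK
  have h1 := h (K.comap f) (hK.comap f)
  have h2 : (K.comap f).map f = K := Subgroup.map_comap_eq_self_of_surjective hf K
  rw [← h2, ← Subgroup.map_commutator, h1]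

theorem NoAbelian.normPerfect {G : Type} [Group G] (h : NoAbelian G) : NormPerfect G :=
  fun H hH => h H hH.isSubnormal

theorem radFree_noAbelian (F : Formation) (h : F.AllSub) (hC : CentralProp F) (G : Type) [Group G]
    (hG : F.mem G) (hrad : RadFree G) : NoAbelian G := by
  have hfin := F.fin G hG
  have key : ∀ K : Subgroup G, K.IsSubnormal → F.mem K ∧ RadFree K := by
    intro K hK
    induction hK with
    | top =>
      have e : G ≃* (⊤ : Subgroup G) := Subgroup.topEquiv.symm
      refine ⟨F.iso _ _ e hG, ?_⟩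
      intro A hA hab
      have h1 := hrad (A.map (⊤ : Subgroup G).subtype) (by
        constructor
        rintro _ ⟨a, ha, rfl⟩ g
        exact ⟨⟨g, trivial⟩ * a * ⟨g, trivial⟩⁻¹, hA.conj_mem a ha ⟨g, trivial⟩, rfl⟩) (by
        rintro _ ⟨a, ha, rfl⟩ _ ⟨b, hb, rfl⟩
        have := congrArg (Subtype.val) (hab a ha b hb)
        exact this)
      rwa [Subgroup.map_eq_bot_iff_of_injective _ (Subgroup.subtype_injective _)] at h1
    | step H K hle hs hn ih =>
      obtain ⟨ih1, ih2⟩ := ih
      haveI : Finite K := F.fin K ih1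
      have h1 : F.mem (H.subgroupOf K) := h F (fun _ _ hh => hh) K ih1 (H.subgroupOf K) hn
      have h2 : RadFree (H.subgroupOf K) := radFree_sub F hC ih2 (H.subgroupOf K) hn h1
      have e : (H.subgroupOf K) ≃* H := Subgroup.subgroupOfEquivOfLe hle
      refine ⟨F.iso _ _ e h1, ?_⟩
      intro A hA hab
      have h3 := h2 (A.comap e.toMonoidHom) (hA.comap _) (by
        intro x hx y hy
        apply e.injective
        rw [map_mul, map_mul]
        exact hab _ hx _ hy)
      rw [eq_bot_iff]
      intro a ha
      have h4 : e.symm a ∈ A.comap e.toMonoidHom := by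
        show e (e.symm a) ∈ A
        rw [e.apply_symm_apply]; exact ha
      rw [h3, Subgroup.mem_bot] at h4
      rw [Subgroup.mem_bot, ← e.apply_symm_apply a, h4, map_one]
  intro K hK
  obtain ⟨h1, h2⟩ := key K hK
  haveI := F.fin K h1
  have h3 := radFree_normPerfect F h hC (Nat.card K) K h1 le_rfl h2 ⊤ inferInstance
  have h4 := congrArg (Subgroup.map K.subtype) h3
  rw [Subgroup.map_commutator, ← MonoidHom.range_eq_map, Subgroup.range_subtype] at h4
  exact h4

theorem good' (F : Formation) (h : F.AllSub) (hC : CentralProp F) (m : ℕ) :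
    ∀ (G : Type) [Group G], F.mem G → Nat.card G ≤ m →
      ∃ n, NoAbelian (G ⧸ Subgroup.upperCentralSeries G n) := by
  induction m with
  | zero =>
    intro G _ hG hc
    have := F.fin G hG
    have := Nat.card_pos (α := G)
    omega
  | succ m ih =>
    intro G _ hG hc
    have hfin := F.fin G hG
    by_cases hrad : RadFree G
    · exact ⟨0, noAbelian_surj (QuotientGroup.mk' _) (QuotientGroup.mk'_surjective _)
        (radFree_noAbelian F h hC G hG hrad)⟩
    · simp only [RadFree, not_forall] at hrad
      obtain ⟨A, hA, hab, hA0⟩ := hrad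
      obtain ⟨V, hV1, hV2, hV3, hV4⟩ := exists_min A hA hA0
      have hVc := hC G hG V hV1 hV3 hV4 (fun x hx y hy => hab x (hV2 hx) y (hV2 hy))
      have hcard : Nat.card (G ⧸ V) < Nat.card G := by
        have h1 := Subgroup.card_eq_card_quotient_mul_card_subgroup V
        have h2 : 1 < Nat.card V := by
          rw [Finite.one_lt_card_iff_nontrivial, Subgroup.nontrivial_iff_ne_bot]
          exact hV3
        have h3 : 0 < Nat.card (G ⧸ V) := Nat.card_pos
        rw [h1]
        nlinarith
      obtain ⟨n, hn⟩ := ih (G ⧸ V) (F.quot G V hG) (by omega)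
      refine ⟨n + 1, ?_⟩
      have hle : ∀ k, ∀ x : G, (QuotientGroup.mk' V x) ∈ Subgroup.upperCentralSeries (G ⧸ V) k →
          x ∈ Subgroup.upperCentralSeries G (k + 1) := by
        intro k
        induction k with
        | zero =>
          intro x hx
          rw [Subgroup.upperCentralSeries_zero, Subgroup.mem_bot] at hx
          have hxV : x ∈ V := (QuotientGroup.eq_one_iff x).1 hx
          rw [Subgroup.upperCentralSeries_one]
          exact hVc hxV
        | succ k ihk =>
          intro x hx
          rw [Subgroup.mem_upperCentralSeries_succ_iff] at hx ⊢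
          intro y
          apply ihk
          rw [map_commutatorElement]
          exact hx _
      have hV' : V ≤ Subgroup.upperCentralSeries G (n + 1) := by
        intro x hx
        apply hle
        have : QuotientGroup.mk' V x = 1 := (QuotientGroup.eq_one_iff x).2 hx
        rw [this]
        exact Subgroup.one_mem _
      let f₁ : G ⧸ V →* G ⧸ Subgroup.upperCentralSeries G (n + 1) :=
        QuotientGroup.lift V (QuotientGroup.mk' _) (by
          intro x hx
          exact (QuotientGroup.eq_one_iff x).2 (hV' hx))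
      let f₂ : (G ⧸ V) ⧸ Subgroup.upperCentralSeries (G ⧸ V) n →*
          G ⧸ Subgroup.upperCentralSeries G (n + 1) :=
        QuotientGroup.lift _ f₁ (by
          intro x hx
          obtain ⟨g, rfl⟩ := QuotientGroup.mk'_surjective V x
          exact (QuotientGroup.eq_one_iff g).2 (hle n g hx))
      refine noAbelian_surj f₂ ?_ hn
      intro q
      obtain ⟨g, rfl⟩ := QuotientGroup.mk'_surjective _ q
      exact ⟨QuotientGroup.mk' _ (QuotientGroup.mk' V g), rfl⟩

/-- `Q` has a nontrivial central subgroup that is contained in every nontrivial normal subgroup. -/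
def CentralMonolith (Q : Type) [Group Q] : Prop :=
  ∃ Z : Subgroup Q, Z ≠ ⊥ ∧ Z ≤ Subgroup.center Q ∧ ∀ K : Subgroup Q, K.Normal → K ≠ ⊥ → Z ≤ K

/-- perfect normal subgroups from their monolithic quotients -/
theorem perfect_mem {X : ∀ (G : Type) [Group G], Prop} (hX : IsFormation X) {G : Type} [Group G]
    (hG : X G) (n : ℕ) (h1 : NoAbelian (G ⧸ Subgroup.upperCentralSeries G n))
    (P : Subgroup G) [hP : P.Normal] (hPP : ⁅P, P⁆ = P)
    (h2 : ∀ (M : Type) [Group M], IsPrimeGroup M → IsQuot M P → X M)
    (h3 : ∀ (Q : Type) [Group Q], CentralMonolith Q → IsQuot Q P → X Q) : X P := by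
  classical
  haveI : Finite G := hX.fin G hG
  set Y := Subgroup.upperCentralSeries G n with hYdef
  obtain ⟨Z, ⟨hZn, hZ⟩, hZmin⟩ := (wellFounded_lt (α := Subgroup P)).has_min
    {Z : Subgroup P | ∃ _ : Z.Normal, X (P ⧸ Z)} ⟨⊤, inferInstance, by
      refine hX.surj (1 : G →* P ⧸ (⊤ : Subgroup P)) ?_ hG
      intro x
      obtain ⟨y, rfl⟩ := QuotientGroup.mk'_surjective _ x
      refine ⟨1, ?_⟩
      have : QuotientGroup.mk' (⊤ : Subgroup P) y = 1 := (QuotientGroup.eq_one_iff y).mpr trivial
      rw [this, map_one]⟩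
  by_cases hZ0 : Z = ⊥
  · subst hZ0
    exact hX.iso _ _ hZ QuotientGroup.quotientBot
  exfalso
  obtain ⟨x, hx, hx1⟩ : ∃ x ∈ Z, x ≠ 1 := by
    by_contra hcon
    push Not at hcon
    exact hZ0 (by rw [eq_bot_iff]; intro y hy; exact Subgroup.mem_bot.mpr (hcon y hy))
  -- a maximal normal subgroup without `x`
  obtain ⟨W, ⟨hWn, hxW⟩, hWmax⟩ := (wellFounded_gt (α := Subgroup P)).has_min
    {W : Subgroup P | W.Normal ∧ x ∉ W} ⟨⊥, inferInstance, by simpa using hx1⟩
  have big : ∀ A : Subgroup (P ⧸ W), A.Normal → A ≠ ⊥ → QuotientGroup.mk' W x ∈ A := by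
    intro A hA hA0
    by_contra hxA
    have hle : W ≤ A.comap (QuotientGroup.mk' W) := by
      intro y hy
      rw [Subgroup.mem_comap]
      have : QuotientGroup.mk' W y = 1 := (QuotientGroup.eq_one_iff y).mpr hy
      rw [this]
      exact A.one_mem
    have hmem : A.comap (QuotientGroup.mk' W) ∈ {W : Subgroup P | W.Normal ∧ x ∉ W} :=
      ⟨hA.comap _, hxA⟩
    have heq : A.comap (QuotientGroup.mk' W) = W := by
      by_contra hne
      exact hWmax _ hmem (lt_of_le_of_ne hle (Ne.symm hne))
    apply hA0
    rw [eq_bot_iff]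
    intro a ha
    obtain ⟨z, rfl⟩ := QuotientGroup.mk'_surjective W a
    have hz : z ∈ W := by rw [← heq]; exact ha
    exact Subgroup.mem_bot.mpr ((QuotientGroup.eq_one_iff z).mpr hz)
  have hxbar : QuotientGroup.mk' W x ≠ 1 := fun hh => hxW ((QuotientGroup.eq_one_iff x).1 hh)
  have hXW : X (P ⧸ W) := by
    by_cases hprime : IsPrimeGroup (P ⧸ W)
    · exact h2 _ hprime ⟨QuotientGroup.mk' W, QuotientGroup.mk'_surjective W⟩
    · refine h3 _ ?_ ⟨QuotientGroup.mk' W, QuotientGroup.mk'_surjective W⟩
      -- the abelian normal subgroup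
      simp only [IsPrimeGroup, not_forall, not_not] at hprime
      obtain ⟨A, B, hA, hB, hA0, hB0, hAB⟩ := hprime
      have hcomm : ⁅A ⊓ B, A ⊓ B⁆ = ⊥ := by
        rw [eq_bot_iff, ← hAB]
        exact Subgroup.commutator_mono inf_le_left inf_le_right
      have hABx : QuotientGroup.mk' W x ∈ A ⊓ B := ⟨big A hA hA0, big B hB hB0⟩
      -- `R` is the preimage in `P`, `R'` its image in `G ⧸ Y`
      set R : Subgroup P := (A ⊓ B).comap (QuotientGroup.mk' W) with hR
      have hRn : R.Normal := by
        have : (A ⊓ B).Normal := inferInstance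
        exact this.comap _
      have hRW : ⁅R, R⁆ ≤ W := by
        have h4 : (⁅R, R⁆).map (QuotientGroup.mk' W) ≤ ⁅A ⊓ B, A ⊓ B⁆ := by
          rw [Subgroup.map_commutator]
          exact Subgroup.commutator_mono (Subgroup.map_comap_le _ _) (Subgroup.map_comap_le _ _)
        rw [hcomm] at h4
        intro z hz
        have : QuotientGroup.mk' W z ∈ (⊥ : Subgroup (P ⧸ W)) := h4 (Subgroup.mem_map_of_mem _ hz)
        exact (QuotientGroup.eq_one_iff z).mp (Subgroup.mem_bot.mp this)
      have hRsub : (R.map P.subtype).IsSubnormal :=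
        Subgroup.IsSubnormal.trans' hRn.isSubnormal hP.isSubnormal
      have hRbar : ((R.map P.subtype).map (QuotientGroup.mk' Y)).IsSubnormal :=
        hRsub.map (QuotientGroup.mk'_surjective Y)
      have hperf := h1 _ hRbar
      rw [← Subgroup.map_commutator, ← Subgroup.map_commutator] at hperf
      have hcen : ∀ r ∈ R, QuotientGroup.mk' W r ∈ Subgroup.center (P ⧸ W) := by
        intro r hr
        have h4 : QuotientGroup.mk' Y (r : G) ∈ (R.map P.subtype).map (QuotientGroup.mk' Y) :=
          ⟨(r : G), ⟨r, hr, rfl⟩, rfl⟩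
        rw [← hperf] at h4
        obtain ⟨_, ⟨c, hc, rfl⟩, hcr⟩ := h4
        have h5 : ((c : G))⁻¹ * (r : G) ∈ Y := QuotientGroup.eq.1 hcr
        rw [Subgroup.mem_center_iff]
        intro q
        obtain ⟨p, rfl⟩ := QuotientGroup.mk'_surjective W q
        -- r = c * z, z central in P
        have hz : (c⁻¹ * r) * p = p * (c⁻¹ * r) := by
          apply Subtype.ext
          exact perf_comm' P hPP n h5 p.2
        have hcW : QuotientGroup.mk' W c = 1 := (QuotientGroup.eq_one_iff c).2 (hRW hc)
        have h6 : QuotientGroup.mk' W (c⁻¹ * r) = QuotientGroup.mk' W r := by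
          rw [map_mul, map_inv, hcW]; simp
        rw [← h6, ← map_mul, ← map_mul, hz]
      refine ⟨Subgroup.normalClosure {QuotientGroup.mk' W x}, ?_, ?_, ?_⟩
      · intro h0
        apply hxbar
        have : QuotientGroup.mk' W x ∈ Subgroup.normalClosure {QuotientGroup.mk' W x} :=
          Subgroup.subset_normalClosure rfl
        rw [h0] at this
        exact Subgroup.mem_bot.1 this
      · have : ({QuotientGroup.mk' W x} : Set (P ⧸ W)) ⊆ Subgroup.center (P ⧸ W) := by
          intro y hy
          rw [Set.mem_singleton_iff] at hy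
          subst hy
          exact hcen x hABx
        exact Subgroup.normalClosure_le_normal this
      · intro K hK hK0
        refine Subgroup.normalClosure_le_normal ?_
        intro y hy
        rw [Set.mem_singleton_iff] at hy
        subst hy
        exact big K hK hK0
  have h4 := hX.inf P Z W hZ hXW
  refine hZmin (Z ⊓ W) ⟨inferInstance, h4⟩ (lt_of_le_of_ne inf_le_left ?_)
  intro heq
  have : x ∈ Z ⊓ W := by rw [heq]; exact hx
  exact hxW this.2

theorem main_refined (hC : ∀ F : Formation, F.AllSub → CentralProp F)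
    (F : ∀ (G : Type) [Group G], Prop) (hF : IsFormation F) :
    AllSubSn F ↔ ∀ (G : Type) [Group G], F G →
      (∃ n, NoAbelian (G ⧸ Subgroup.upperCentralSeries G n)) ∧
      (∀ N : Subgroup G, N.Normal → ∀ (M : Type) [Group M], IsPrimeGroup M → IsQuot M N →
        IsQuot M G) ∧
      (∀ P : Subgroup G, P.Normal → ⁅P, P⁆ = P → ∀ (Q : Type) [Group Q], CentralMonolith Q →
        IsQuot Q P → InForm G Q) := by
  constructor
  · intro h G _ hG
    have h' := (allSub_iff F hF).2 h
    refine ⟨good' (toF F hF) h' (hC _ h') (Nat.card G) G hG le_rfl, ?_, ?_⟩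
    · intro N hN M _ hM q
      exact prime_quotient (toF F hF) h' G hG N hN M hM q
    · intro P hP _ Q _ _ hq X hX hXG
      haveI := hP
      obtain ⟨f, hf⟩ := hq
      have h1 := (h _ (inter_isFormation hF hX) (fun _ _ hh => hh.1) G P ⟨hG, hXG⟩).2
      exact hX.surj f hf h1
  · intro h H hH hHF G _ N hN hG
    obtain ⟨⟨n, hn⟩, h2, h3⟩ := h G (hHF G hG)
    haveI := hN
    refine suff hH hG n (NoAbelian.normPerfect hn) (fun P hP hPP => ?_) N
    haveI := hP
    refine perfect_mem hH hG n hn P hPP ?_ ?_
    · intro M _ hM q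
      obtain ⟨f, hf⟩ := h2 P hP M hM q
      exact hH.surj f hf hG
    · intro Q _ hQ q
      exact h3 P hP hPP Q hQ q H hH hG

end Pool.Agent.H463R4.FO
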