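import Pool.Agent.H463R4.FO.Neu

set_option autoImplicit false

/-! # Sufficiency (helper463) -/

namespace Pool.Agent.H463R4.FO

variable {G : Type} [Group G]

theorem perf_comm (P : Subgroup G) (hP : ⁅P, P⁆ = P) (n : ℕ) :
    ⁅Subgroup.upperCentralSeries G n, P⁆ = ⊥ := by
  induction n with
  | zero => rw [Subgroup.upperCentralSeries_zero]; exact Subgroup.commutator_bot_left P
  | succ n ih =>
    have h1 : ⁅Subgroup.upperCentralSeries G (n+1), P⁆ ≤ Subgroup.upperCentralSeries G n :=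
      (Subgroup.commutator_mono le_rfl le_top).trans (Subgroup.commutator_upperCentralSeries_top_le G n)
    have h2 : ⁅⁅Subgroup.upperCentralSeries G (n+1), P⁆, P⁆ = ⊥ := by
      rw [eq_bot_iff, ← ih]
      exact Subgroup.commutator_mono h1 le_rfl
    have h3 : ⁅⁅P, P⁆, Subgroup.upperCentralSeries G (n+1)⁆ = ⊥ := by
      refine Subgroup.commutator_commutator_eq_bot_of_rotate ?_ h2
      rw [Subgroup.commutator_comm P]; exact h2
    rw [hP] at h3
    rw [Subgroup.commutator_comm]; exact h3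

theorem perf_comm' (P : Subgroup G) (hP : ⁅P, P⁆ = P) (n : ℕ) {y p : G}
    (hy : y ∈ Subgroup.upperCentralSeries G n) (hp : p ∈ P) : y * p = p * y := by
  have h := Subgroup.commutator_mem_commutator hy hp
  rw [perf_comm P hP n, Subgroup.mem_bot, commutatorElement_def] at h
  have : y * p * y⁻¹ * p⁻¹ = 1 := h
  rw [mul_inv_eq_one, mul_inv_eq_iff_eq_mul] at this
  exact this

theorem exists_perf [Finite G] (Y : Subgroup G) [Y.Normal] (h1 : NormPerfect (G ⧸ Y))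
    (N : Subgroup G) [hN : N.Normal] :
    ∃ P : Subgroup G, P.Normal ∧ ⁅P, P⁆ = P ∧ P ≤ N ∧ N ≤ P ⊔ Y := by
  obtain ⟨P, ⟨hPn, hPN, hNP⟩, hmin⟩ := (wellFounded_lt (α := Subgroup G)).has_min
    {P : Subgroup G | P.Normal ∧ P ≤ N ∧ N ≤ P ⊔ Y} ⟨N, hN, le_rfl, le_sup_left⟩
  refine ⟨P, hPn, ?_, hPN, hNP⟩
  by_contra hne
  have hle : ⁅P, P⁆ ≤ P := Subgroup.commutator_le_left P P
  have hlt : ⁅P, P⁆ < P := lt_of_le_of_ne hle hne
  refine hmin _ ⟨Subgroup.commutator_normal P P, hle.trans hPN, ?_⟩ hlt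
  have hbar : ⁅P.map (QuotientGroup.mk' Y), P.map (QuotientGroup.mk' Y)⁆ =
      P.map (QuotientGroup.mk' Y) :=
    h1 _ (hPn.map _ (QuotientGroup.mk'_surjective Y))
  rw [← Subgroup.map_commutator] at hbar
  have hP2 : P ≤ ⁅P, P⁆ ⊔ Y := by
    intro x hx
    have h3 : QuotientGroup.mk' Y x ∈ P.map (QuotientGroup.mk' Y) := ⟨x, hx, rfl⟩
    rw [← hbar] at h3
    obtain ⟨c, hc, hcx⟩ := h3
    have h4 : c⁻¹ * x ∈ Y := QuotientGroup.eq.1 hcx
    have h5 : x = c * (c⁻¹ * x) := by group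
    rw [h5]
    exact Subgroup.mul_mem _ (Subgroup.mem_sup_left hc) (Subgroup.mem_sup_right h4)
  exact hNP.trans (sup_le hP2 le_sup_right)

theorem ucs_nilpotent (n : ℕ) : Group.IsNilpotent (Subgroup.upperCentralSeries G n) := by
  rw [Subgroup.nilpotent_iff_finite_ascending_central_series]
  refine ⟨n, fun i => (Subgroup.upperCentralSeries G i).subgroupOf _, ⟨?_, ?_⟩, ?_⟩
  · simp
  · intro x i hx g
    rw [Subgroup.mem_subgroupOf] at hx ⊢
    have := Subgroup.mem_upperCentralSeries_succ_iff.1 hx g.1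
    exact this
  · simp

theorem suff {X : ∀ (G : Type) [Group G], Prop} (hX : IsFormation X) (hG : X G) (n : ℕ)
    (h1 : NormPerfect (G ⧸ Subgroup.upperCentralSeries G n))
    (h2 : ∀ N : Subgroup G, N.Normal → ⁅N, N⁆ = N → X N) (N : Subgroup G) [N.Normal] : X N := by
  have hfin : Finite G := hX.fin G hG
  set Y := Subgroup.upperCentralSeries G n with hY
  have hYnil : Group.IsNilpotent Y := ucs_nilpotent n
  -- `Y ∈ X`
  have hYX : X Y := by
    obtain ⟨P, hPn, hPP, -, hPY⟩ := exists_perf Y h1 ⊤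
    let D : Subgroup (G × G) :=
      { carrier := {p | p.1⁻¹ * p.2 ∈ Y}
        one_mem' := by simp [Y.one_mem]
        mul_mem' := by
          rintro ⟨a, b⟩ ⟨c, d⟩ h3 h4
          simp only [Set.mem_ofPred_eq] at h3 h4
          show (a * c)⁻¹ * (b * d) ∈ Y
          have h5 : c⁻¹ * (a⁻¹ * b) * c⁻¹⁻¹ ∈ Y :=
            Subgroup.Normal.conj_mem inferInstance _ h3 c⁻¹
          have e : (a * c)⁻¹ * (b * d) = c⁻¹ * (a⁻¹ * b) * c⁻¹⁻¹ * (c⁻¹ * d) := by group
          rw [e]; exact Y.mul_mem h5 h4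
        inv_mem' := by
          rintro ⟨a, b⟩ h3
          simp only [Set.mem_ofPred_eq] at h3
          show a⁻¹⁻¹ * b⁻¹ ∈ Y
          have h5 : a * (a⁻¹ * b)⁻¹ * a⁻¹ ∈ Y :=
            Subgroup.Normal.conj_mem inferInstance _ (Y.inv_mem h3) a
          have e : a⁻¹⁻¹ * b⁻¹ = a * (a⁻¹ * b)⁻¹ * a⁻¹ := by group
          rw [e]; exact h5 }
    have hD : X D := by
      refine hX.two hG hG ((MonoidHom.fst G G).comp D.subtype) ((MonoidHom.snd G G).comp D.subtype)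
        ?_ ?_ ?_
      · intro g; exact ⟨⟨(g, g), by show g⁻¹ * g ∈ Y; simp [Y.one_mem]⟩, rfl⟩
      · intro g; exact ⟨⟨(g, g), by show g⁻¹ * g ∈ Y; simp [Y.one_mem]⟩, rfl⟩
      · rintro ⟨⟨a, b⟩, h⟩ ha hb
        exact Subtype.ext (Prod.ext ha hb)
    let Δ : Subgroup D :=
      { carrier := {p | p.1.1 ∈ P ∧ p.1.1 = p.1.2}
        one_mem' := ⟨P.one_mem, rfl⟩
        mul_mem' := by
          rintro ⟨⟨a, b⟩, _⟩ ⟨⟨c, d⟩, _⟩ ⟨h3, h4⟩ ⟨h5, h6⟩
          simp only at h3 h4 h5 h6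
          subst h4 h6
          exact ⟨P.mul_mem h3 h5, rfl⟩
        inv_mem' := by
          rintro ⟨⟨a, b⟩, _⟩ ⟨h3, h4⟩
          simp only at h3 h4
          subst h4
          exact ⟨P.inv_mem h3, rfl⟩ }
    have hΔ : Δ.Normal := by
      constructor
      rintro ⟨⟨u, u'⟩, hu⟩ ⟨h3, h4⟩ ⟨⟨a, b⟩, hab⟩
      simp only at h3 h4
      subst h4
      refine ⟨hPn.conj_mem _ h3 a, ?_⟩
      show a * u * a⁻¹ = b * u * b⁻¹
      have hab' : a⁻¹ * b ∈ Y := hab
      have h5 := perf_comm' P hPP n hab' h3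
      have e : b * u * b⁻¹ = a * ((a⁻¹ * b) * u) * (a⁻¹ * b)⁻¹ * a⁻¹ := by group
      rw [e, h5]; group
    have hQ : X (D ⧸ Δ) := hX.quot D Δ hD
    have hmemD : ∀ y₁ y₂ : Y, ((y₁ : G), (y₂ : G)) ∈ D := by
      intro y₁ y₂
      exact Y.mul_mem (Y.inv_mem y₁.2) y₂.2
    let φ : Y × Y →* D ⧸ Δ :=
      (QuotientGroup.mk' Δ).comp
        { toFun := fun y => ⟨((y.1 : G), (y.2 : G)), hmemD y.1 y.2⟩
          map_one' := rfl
          map_mul' := fun _ _ => rfl }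
    have hφ : Function.Surjective φ := by
      intro q
      obtain ⟨⟨⟨a, b⟩, hab⟩, rfl⟩ := QuotientGroup.mk'_surjective Δ q
      have ha : a ∈ P ⊔ Y := hPY trivial
      obtain ⟨u, hu, y, hy, rfl⟩ := Subgroup.mem_sup_of_normal_right.1 ha
      have hab' : (u * y)⁻¹ * b ∈ Y := hab
      have hz : y * ((u * y)⁻¹ * b) ∈ Y := Y.mul_mem hy hab'
      refine ⟨(⟨y, hy⟩, ⟨_, hz⟩), ?_⟩
      refine QuotientGroup.eq.2 ?_
      refine ⟨?_, ?_⟩
      · show y⁻¹ * (u * y) ∈ P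
        have := hPn.conj_mem u hu y⁻¹
        simpa [mul_assoc] using this
      · show y⁻¹ * (u * y) = (y * ((u * y)⁻¹ * b))⁻¹ * b
        have h5 := perf_comm' P hPP n hy hu
        have h6 := perf_comm' P hPP n hz hu
        have e1 : y⁻¹ * (u * y) = u := by rw [← h5]; group
        have e2 : (y * ((u * y)⁻¹ * b))⁻¹ * b =
            (y * ((u * y)⁻¹ * b))⁻¹ * (u * (y * ((u * y)⁻¹ * b))) := by group
        rw [e1, e2, ← h6]; group
    have hQnil : Group.IsNilpotent (D ⧸ Δ) := Group.nilpotent_of_surjective φ hφ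
    let ψ : Y →* D ⧸ Δ := φ.comp (MonoidHom.inl Y Y)
    have hψ : Function.Injective ψ := by
      rw [injective_iff_map_eq_one]
      intro y hy
      have h3 : (⟨((y : G), ((1 : Y) : G)), hmemD y 1⟩ : D) ∈ Δ := (QuotientGroup.eq_one_iff _).1 hy
      exact Subtype.ext h3.2
    have h4 : X ψ.range := neumann hX (D ⧸ Δ) ψ.range hQ
    exact hX.iso _ _ h4 (MonoidHom.ofInjective hψ).symm
  have hNY : X (N.subgroupOf Y) := neumann hX Y (N.subgroupOf Y) hYX
  obtain ⟨P, hPn, hPP, hPN, hNP⟩ := exists_perf Y h1 N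
  have hPX : X P := h2 P hPn hPP
  let θ : P × (N.subgroupOf Y) →* N :=
    { toFun := fun x => ⟨(x.1 : G) * ((x.2 : Y) : G), N.mul_mem (hPN x.1.2) x.2.2⟩
      map_one' := by simp
      map_mul' := by
        rintro ⟨p, y⟩ ⟨q, z⟩
        apply Subtype.ext
        show (p : G) * q * (((y : Y) : G) * ((z : Y) : G)) = p * (y : Y) * (q * (z : Y))
        have h3 := perf_comm' P hPP n (y : Y).2 q.2
        calc (p : G) * q * (((y : Y) : G) * ((z : Y) : G)) = p * (q * ((y : Y) : G)) * ((z : Y) : G) := by group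
          _ = p * (((y : Y) : G) * q) * ((z : Y) : G) := by rw [h3]
          _ = _ := by group }
  refine hX.surj θ ?_ (hX.prod hPX hNY)
  rintro ⟨x, hx⟩
  obtain ⟨u, hu, y, hy, rfl⟩ := Subgroup.mem_sup_of_normal_right.1 (hNP hx)
  have hyN : y ∈ N := by
    have := N.mul_mem (N.inv_mem (hPN hu)) hx
    simpa using this
  exact ⟨(⟨u, hu⟩, ⟨⟨y, hy⟩, hyN⟩), rfl⟩

end Pool.Agent.H463R4.FO
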